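import Pool.Agent.W861.TF.Stm

/-!
Project TF (MP_86f7a7_co): part C3, counting when most directions lie in a small subspace.
-/

set_option autoImplicit false

open Pool.Agent.W861.TF

namespace Pool.Agent.W330.TF

theorem c3 (hp : S_PACK) : S_C3 := by
  classical
  intro p n R q d Hh D a x0 v N S F hq hH hshort hF hprog hS hfin
  set W : Submodule ℝ (Fin n → ℝ) := Submodule.span ℝ
    ((fun i => toR (v i : Fin n → ℤ)) '' {i | i ∉ S ∧ 2 ≤ N i}) with hW
  -- choose representations
  have hrep : ∀ f : Lam p a, ∃ k : Fin d → ℕ, f ∈ F → (∀ i, k i < N i) ∧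
      f = x0 + ∑ i, k i • v i := by
    intro f
    by_cases hf : f ∈ F
    · obtain ⟨k, hk, hk'⟩ := hprog hf
      exact ⟨k, fun _ => ⟨hk, hk'⟩⟩
    · exact ⟨0, fun h => absurd h hf⟩
  choose k hk using hrep
  let cls : Lam p a → (S → Fin Hh) := fun f i =>
    ⟨(k f i.1) % Hh, Nat.mod_lt _ (by omega)⟩
  have hcard : ∀ c ∈ (Finset.univ : Finset (S → Fin Hh)),
      (F.filter (fun f => cls f = c)).card ≤ (16 * R + 1) ^ D := by
    intro c _
    have hinj : Set.InjOn (fun x : Lam p a => (x : Fin n → ℤ))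
        (↑(F.filter (fun f => cls f = c)) : Set (Lam p a)) := by
      intro x _ y _ h
      exact Subtype.ext h
    have hc1 := Finset.card_image_of_injOn hinj
    rw [← hc1]
    refine le_trans (hp n R q W _ hq ?_ ?_ ?_) (Nat.pow_le_pow_right (by omega) hfin)
    · intro x hx i
      obtain ⟨f, hf, rfl⟩ := Finset.mem_image.1 hx
      have := hF f (Finset.mem_filter.1 hf).1 i
      push_cast at this
      exact this
    · intro x hx y hy
      obtain ⟨f, hf, rfl⟩ := Finset.mem_image.1 hx
      obtain ⟨g, hg, rfl⟩ := Finset.mem_image.1 hy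
      obtain ⟨hf1, hf2⟩ := Finset.mem_filter.1 hf
      obtain ⟨hg1, hg2⟩ := Finset.mem_filter.1 hg
      obtain ⟨hkf, ef⟩ := hk f hf1
      obtain ⟨hkg, eg⟩ := hk g hg1
      have hdiff : toR ((f : Fin n → ℤ) - (g : Fin n → ℤ)) =
          ∑ i, ((k f i : ℝ) - (k g i : ℝ)) • toR (v i : Fin n → ℤ) := by
        have e1 : (f : Fin n → ℤ) = (x0 : Fin n → ℤ) + ∑ i, k f i • (v i : Fin n → ℤ) := by
          conv_lhs => rw [ef]
          simp
        have e2 : (g : Fin n → ℤ) = (x0 : Fin n → ℤ) + ∑ i, k g i • (v i : Fin n → ℤ) := by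
          conv_lhs => rw [eg]
          simp
        ext j
        rw [e1, e2]
        simp only [toR, Pi.sub_apply, Pi.add_apply, Finset.sum_apply, Pi.smul_apply, smul_eq_mul]
        push_cast
        rw [add_sub_add_left_eq_sub, ← Finset.sum_sub_distrib]
        refine Finset.sum_congr rfl fun i _ => ?_
        rw [sub_mul, nsmul_eq_mul, nsmul_eq_mul, Int.cast_mul, Int.cast_mul, Int.cast_natCast,
          Int.cast_natCast]
      show toR ((f : Fin n → ℤ) - (g : Fin n → ℤ)) ∈ W
      rw [hdiff]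
      refine Submodule.sum_mem _ fun i _ => ?_
      by_cases hi : i ∈ S
      · have h1 : cls f ⟨i, hi⟩ = cls g ⟨i, hi⟩ := by rw [hf2, hg2]
        have h2 : k f i % Hh = k g i % Hh := congrArg Fin.val h1
        rw [Nat.mod_eq_of_lt (lt_trans (hkf i) (hS i hi)),
          Nat.mod_eq_of_lt (lt_trans (hkg i) (hS i hi))] at h2
        rw [h2, sub_self, zero_smul]
        exact Submodule.zero_mem _
      · by_cases hN : 2 ≤ N i
        · exact Submodule.smul_mem _ _ (Submodule.subset_span ⟨i, ⟨hi, hN⟩, rfl⟩)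
        · have h1 := hkf i
          have h2 := hkg i
          have h3 : k f i = 0 := by omega
          have h4 : k g i = 0 := by omega
          rw [h3, h4, sub_self, zero_smul]
          exact Submodule.zero_mem _
    · intro x hx y hy hxy
      obtain ⟨f, hf, rfl⟩ := Finset.mem_image.1 hx
      obtain ⟨g, hg, rfl⟩ := Finset.mem_image.1 hy
      have h1 : Orth p a ((f : Fin n → ℤ) - (g : Fin n → ℤ)) := (f - g).2
      obtain ⟨i, hi⟩ := hshort _ h1 (sub_ne_zero.2 hxy)
      exact ⟨i, hi⟩
  have := Finset.card_le_mul_card_image_of_maps_to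
    (s := F) (t := (Finset.univ : Finset (S → Fin Hh))) (f := cls)
    (fun _ _ => Finset.mem_univ _) ((16 * R + 1) ^ D) hcard
  rw [Finset.card_univ, Fintype.card_fun, Fintype.card_fin, Fintype.card_coe] at this
  rw [mul_comm]
  exact this

end Pool.Agent.W330.TF
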